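import Pool.Agent.Helper42.PQ.Base
import Pool.Agent.Helper42.PQ.Spec

set_option autoImplicit false

/-!
Part M4 of swarm PQ.
-/

namespace Pool.Agent.Helper95.PQ.M4

open Finset Pool.Agent.Helper42.PQ

lemma sx_eq_ite {α : Type} [Fintype α] [DecidableEq α] (x : α → ℕ) (U : Finset α) :
    ∑ v ∈ U, x v = ∑ v, if v ∈ U then x v else 0 := by
  rw [Finset.sum_ite_mem, Finset.univ_inter]

lemma sum_cls_a {α β : Type} [Fintype α] [DecidableEq α] [DecidableEq β]
    (x : α → ℕ) (ρ : α → β) (a b : β) (hab : a ≠ b) (S T : Finset α)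
    (hS : ∀ v ∈ S, ρ v = a) (hT : ∀ v ∈ T, ρ v = b) :
    (∑ v ∈ Finset.univ.filter
        (fun v => (if v ∈ S then b else if v ∈ T then a else ρ v) = a), x v) + sx x S
      = (∑ v ∈ Finset.univ.filter (fun v => ρ v = a), x v) + sx x T := by
  unfold sx
  rw [sx_eq_ite, sx_eq_ite x S, sx_eq_ite x (Finset.univ.filter (fun v => ρ v = a)),
    sx_eq_ite x T, ← Finset.sum_add_distrib, ← Finset.sum_add_distrib]
  refine Finset.sum_congr rfl fun v _ => ?_
  simp only [Finset.mem_filter, Finset.mem_univ, true_and]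
  by_cases h1 : v ∈ S
  · have h2 : v ∉ T := fun h => hab ((hS v h1).symm.trans (hT v h))
    simp [h1, h2, hS v h1, hab.symm]
  · by_cases h2 : v ∈ T
    · simp [h1, h2, hT v h2, hab.symm]
    · simp [h1, h2]

lemma sum_cls_b {α β : Type} [Fintype α] [DecidableEq α] [DecidableEq β]
    (x : α → ℕ) (ρ : α → β) (a b : β) (hab : a ≠ b) (S T : Finset α)
    (hS : ∀ v ∈ S, ρ v = a) (hT : ∀ v ∈ T, ρ v = b) :
    (∑ v ∈ Finset.univ.filter
        (fun v => (if v ∈ S then b else if v ∈ T then a else ρ v) = b), x v) + sx x T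
      = (∑ v ∈ Finset.univ.filter (fun v => ρ v = b), x v) + sx x S := by
  unfold sx
  rw [sx_eq_ite, sx_eq_ite x S, sx_eq_ite x (Finset.univ.filter (fun v => ρ v = b)),
    sx_eq_ite x T, ← Finset.sum_add_distrib, ← Finset.sum_add_distrib]
  refine Finset.sum_congr rfl fun v _ => ?_
  simp only [Finset.mem_filter, Finset.mem_univ, true_and]
  by_cases h1 : v ∈ S
  · have h2 : v ∉ T := fun h => hab ((hS v h1).symm.trans (hT v h))
    simp [h1, h2, hS v h1, hab]
  · by_cases h2 : v ∈ T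
    · simp [h1, h2, hT v h2, hab]
    · simp [h1, h2]

lemma dvd_of_eq {N A' s A t : ℕ} (h : A' + s = A + t) (hst : s ≡ t [MOD N])
    (hA : N ∣ A + 1) : N ∣ A' + 1 := by
  have h1 : A' + s ≡ A + s [MOD N] := by
    rw [h]; exact (hst.symm).add_left A
  have h2 : A' ≡ A [MOD N] := Nat.ModEq.add_right_cancel' s h1
  exact (Nat.modEq_zero_iff_dvd.mp ((h2.add_right 1).trans (Nat.modEq_zero_iff_dvd.mpr hA)))

lemma isDv_swap {α β : Type} [Fintype α] [DecidableEq α] [DecidableEq β] {N : ℕ}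
    {x : α → ℕ} {ρ : α → β} (hρ : IsDv N x ρ) {a b : β} (hab : a ≠ b) {S T : Finset α}
    (hS : ∀ v ∈ S, ρ v = a) (hT : ∀ v ∈ T, ρ v = b) (hst : sx x S ≡ sx x T [MOD N]) :
    IsDv N x (fun v => if v ∈ S then b else if v ∈ T then a else ρ v) := by
  intro j
  by_cases ha : j = a
  · subst ha
    exact dvd_of_eq (sum_cls_a x ρ j b hab S T hS hT) hst (hρ j)
  by_cases hb : j = b
  · subst hb
    exact dvd_of_eq (sum_cls_b x ρ a j hab S T hS hT) hst.symm (hρ j)
  have e : (Finset.univ.filter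
      (fun v => (if v ∈ S then b else if v ∈ T then a else ρ v) = j)) =
      Finset.univ.filter (fun v => ρ v = j) := by
    ext v
    simp only [Finset.mem_filter, Finset.mem_univ, true_and]
    by_cases h1 : v ∈ S
    · simp [h1, hS v h1, Ne.symm ha, Ne.symm hb]
    · by_cases h2 : v ∈ T
      · simp [h1, h2, hT v h2, Ne.symm ha, Ne.symm hb]
      · simp [h1, h2]
  show N ∣ (∑ v ∈ Finset.univ.filter
      (fun v => (if v ∈ S then b else if v ∈ T then a else ρ v) = j), x v) + 1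
  rw [e]
  exact hρ j

theorem main : S_M4 := by
  intro N α β _ _ _ _ x R hN hO ρ κ hR a b hab S T hS hT hst
  obtain ⟨_, _, hO3⟩ := hO
  obtain ⟨hρ, hκ, _, _, _, hstep⟩ := hO3 ρ κ hR
  refine hstep _ ⟨hρ, isDv_swap hρ hab hS hT hst, a, b, ?_⟩
  intro v _
  refine ⟨fun h1 h2 => ?_, fun h => ?_⟩
  · have h3 : v ∉ S := fun h => h1 (hS v h)
    have h4 : v ∉ T := fun h => h2 (hT v h)
    simp [h3, h4]
  · by_cases h1 : v ∈ S
    · simp [h1]
    · by_cases h2 : v ∈ T
      · simp [h1, h2]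
      · simp [h1, h2, h]

end Pool.Agent.Helper95.PQ.M4
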