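import Pool.Agent.Helper42.PQ.Base
import Pool.Agent.Helper42.PQ.Spec

set_option autoImplicit false

/-!
Part M5 of swarm PQ.
-/

namespace Pool.Agent.Helper95.PQ.M5

open Finset Pool.Agent.Helper42.PQ

variable {N : ℕ} {α β : Type} [Fintype α] [DecidableEq α] [Fintype β]
  [DecidableEq β] {x : α → ℕ} {R : (α → β) → (α → β) → Prop}

/-- no class of `κ` is a single item -/
lemma no_single (h4 : S_M4) (hN : 2 ≤ N) (hO : OrtF N x R) {ρ κ : α → β} (hR : R ρ κ) (v : α) :
    ∃ w, w ≠ v ∧ κ w = κ v := by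
  by_contra hcon
  push Not at hcon
  have hO3 := hO.2.2
  obtain ⟨hρ, hκ, _, hnc, _, _⟩ := hO3 ρ κ hR
  -- the class of `κ v` has sum `x v`
  have e1 : (Finset.univ.filter (fun w => κ w = κ v)) = {v} := by
    ext w
    simp only [Finset.mem_filter, Finset.mem_univ, true_and, Finset.mem_singleton]
    refine ⟨fun h => ?_, fun h => by rw [h]⟩
    by_contra hne
    exact hcon w hne h
  have h1 : N ∣ x v + 1 := by
    have := hκ (κ v)
    rw [e1, Finset.sum_singleton] at this
    exact this
  set T : Finset α := (Finset.univ.filter (fun w => ρ w = ρ v)).erase v with hT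
  have hTm : ∀ w, w ∈ T ↔ w ≠ v ∧ ρ w = ρ v := by
    intro w; simp [hT]
  have h2 : N ∣ sx x T := by
    have h3 := hρ (ρ v)
    have hv : v ∈ Finset.univ.filter (fun w => ρ w = ρ v) := by simp
    rw [← Finset.add_sum_erase _ _ hv, ← hT] at h3
    have h5 : x v + ∑ w ∈ T, x w + 1 = (x v + 1) + ∑ w ∈ T, x w := by ring
    rw [h5] at h3
    exact (Nat.dvd_add_right h1).mp h3
  obtain ⟨b, hb⟩ : ∃ b : β, b ≠ ρ v := by
    have : Nontrivial β := Fintype.one_lt_card_iff_nontrivial.mp (by have := hO.2.1; omega)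
    exact exists_ne (ρ v)
  have hst : sx x T ≡ sx x (∅ : Finset α) [MOD N] := by
    have : sx x (∅ : Finset α) = 0 := by simp [sx]
    rw [this]
    exact Nat.modEq_zero_iff_dvd.mpr h2
  have hR' := h4 N α β x R hN hO ρ κ hR (ρ v) b hb.symm T ∅ (fun w hw => ((hTm w).mp hw).2)
    (fun w hw => absurd hw (Finset.notMem_empty w)) hst
  obtain ⟨_, _, _, hnc', _, _⟩ := hO3 _ κ hR'
  obtain ⟨w, hw⟩ := hnc' (ρ v) (κ v)
  apply hw
  by_cases hwv : w = v
  · subst hwv
    simp [hTm]
  · have h6 : ¬ κ w = κ v := hcon w hwv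
    by_cases hwT : w ∈ T
    · simp [hwT, h6, hb]
    · have h7 : ¬ ρ w = ρ v := fun h => hwT ((hTm w).mpr ⟨hwv, h⟩)
      simp [hwT, h6, h7]

theorem main (h4 : S_M4) : S_M5 := by
  intro N α β _ _ _ _ x R hN hO ρ κ hR a
  have hO3 := hO.2.2
  obtain ⟨hρ, hκ, horth, hnc, hsym, _⟩ := hO3 ρ κ hR
  refine ⟨fun S hS hne hdvd => ?_, ?_⟩
  · obtain ⟨v, hv⟩ := hne
    obtain ⟨w, hwv, hw⟩ := no_single h4 hN hO hR v
    have hρw : ρ w ≠ a := by
      intro h
      exact horth w v hwv (h.trans (hS v hv).symm) hw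
    have hst : sx x S ≡ sx x (∅ : Finset α) [MOD N] := by
      have : sx x (∅ : Finset α) = 0 := by simp [sx]
      rw [this]
      exact Nat.modEq_zero_iff_dvd.mpr hdvd
    have hR' := h4 N α β x R hN hO ρ κ hR a (ρ w) hρw.symm S ∅ hS
      (fun w hw => absurd hw (Finset.notMem_empty w)) hst
    obtain ⟨_, _, horth', _, _, _⟩ := hO3 _ κ hR'
    have hwS : w ∉ S := fun h => hρw (hS w h)
    exact horth' w v hwv (by simp [hwS, hv]) hw
  · by_contra hlt
    push Not at hlt
    set C := Finset.univ.filter (fun v => ρ v = a) with hC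
    have hCm : ∀ w, w ∈ C ↔ ρ w = a := by intro w; simp [hC]
    have hdv := hρ a
    rw [← hC] at hdv
    have hcases : C.card = 0 ∨ C.card = 1 ∨ C.card = 2 := by omega
    rcases hcases with h0 | h1 | h2
    · rw [Finset.card_eq_zero] at h0
      rw [h0] at hdv
      simp at hdv
      omega
    · obtain ⟨v, hv⟩ := Finset.card_eq_one.mp h1
      obtain ⟨w, hwv, hw⟩ := no_single h4 hN hO hsym v
      have hρv : ρ v = a := (hCm v).mp (by rw [hv]; simp)
      have hwC : w ∈ C := (hCm w).mpr (hw.trans hρv)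
      rw [hv] at hwC
      exact hwv (Finset.mem_singleton.mp hwC)
    · obtain ⟨v, w, hvw, hvwC⟩ := Finset.card_eq_two.mp h2
      have hρv : ρ v = a := (hCm v).mp (by rw [hvwC]; simp)
      have hρw : ρ w = a := (hCm w).mp (by rw [hvwC]; simp)
      have hκ' : κ v ≠ κ w := horth v w hvw (hρv.trans hρw.symm)
      have hsum : N ∣ x v + x w + 1 := by
        rw [hvwC, Finset.sum_pair hvw] at hdv
        exact hdv
      set T : Finset α := (Finset.univ.filter (fun u => κ u = κ v)).erase v with hT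
      have hTm : ∀ u, u ∈ T ↔ u ≠ v ∧ κ u = κ v := by
        intro u; simp [hT]
      have h3 : N ∣ x v + sx x T + 1 := by
        have h3 := hκ (κ v)
        have hv : v ∈ Finset.univ.filter (fun w => κ w = κ v) := by simp
        rw [← Finset.add_sum_erase _ _ hv, ← hT] at h3
        exact h3
      have hst : sx x T ≡ sx x ({w} : Finset α) [MOD N] := by
        have e : sx x ({w} : Finset α) = x w := by simp [sx]
        rw [e]
        have h5 : x v + sx x T + 1 ≡ x v + x w + 1 [MOD N] :=
          (Nat.modEq_zero_iff_dvd.mpr h3).trans (Nat.modEq_zero_iff_dvd.mpr hsum).symm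
        have h6 := Nat.ModEq.add_right_cancel' 1 h5
        exact Nat.ModEq.add_left_cancel' (x v) h6
      have hR' := h4 N α β x R hN hO κ ρ hsym (κ v) (κ w) hκ' T {w}
        (fun u hu => ((hTm u).mp hu).2) (fun u hu => by rw [Finset.mem_singleton.mp hu]) hst
      obtain ⟨_, _, _, hnc', _, _⟩ := hO3 _ ρ hR'
      obtain ⟨u, hu⟩ := hnc' (κ v) a
      apply hu
      have hua : ρ u = a ↔ u = v ∨ u = w := by
        rw [← hCm u, hvwC]; simp
      rw [hua]
      by_cases huT : u ∈ T
      · have huv : u ≠ v := ((hTm u).mp huT).1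
        have huw : u ≠ w := by
          intro h
          rw [h] at huT
          exact hκ' (((hTm w).mp huT).2).symm
        simp [huT, huv, huw, hκ'.symm]
      · by_cases huw : u = w
        · simp [huT, huw]
          intro hh
          exact absurd (huw ▸ hh) huT
        · by_cases huv : u = v
          · simp [huT, huw, huv, hvw]
            intro hh
            exact absurd (huv ▸ hh) huT
          · have h7 : ¬ κ u = κ v := fun h => huT ((hTm u).mpr ⟨huv, h⟩)
            simp [huT, huw, huv, h7]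

end Pool.Agent.Helper95.PQ.M5
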