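import Pool.Agent.Helper42.PQ.Base
import Pool.Agent.Helper42.PQ.Spec

set_option autoImplicit false

/-!
Part M7 of swarm PQ.
-/

namespace Pool.Agent.Helper95.PQ.M7

open Finset Pool.Agent.Helper42.PQ

/-- lift a submultiset of an image to a subset -/
lemma lift_le {α β : Type} [DecidableEq α] [DecidableEq β] (f : α → β) (A : Finset α) :
    ∀ σ : Multiset β, σ ≤ A.val.map f → ∃ S : Finset α, S ⊆ A ∧ S.val.map f = σ := by
  induction A using Finset.induction_on with
  | empty =>
    intro σ hσ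
    refine ⟨∅, Finset.Subset.refl _, ?_⟩
    simp at hσ
    simp [hσ]
  | insert a A ha ih =>
    intro σ hσ
    rw [Finset.insert_val_of_notMem ha, Multiset.map_cons] at hσ
    by_cases h : f a ∈ σ
    · obtain ⟨σ', rfl⟩ := Multiset.exists_cons_of_mem h
      obtain ⟨S, hS, hS'⟩ := ih σ' ((Multiset.cons_le_cons_iff _).mp hσ)
      refine ⟨insert a S, Finset.insert_subset_insert a hS, ?_⟩
      rw [Finset.insert_val_of_notMem (fun h => ha (hS h)), Multiset.map_cons, hS']
    · obtain ⟨S, hS, hS'⟩ := ih σ ((Multiset.le_cons_of_notMem h).mp hσ)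
      exact ⟨S, hS.trans (Finset.subset_insert a A), hS'⟩

lemma sum_map_modEq {α : Type} (N : ℕ) (x : α → ℕ) (S : Finset α) :
    (S.val.map (fun v => x v % N)).sum ≡ sx x S [MOD N] := by
  show ∑ v ∈ S, x v % N ≡ ∑ v ∈ S, x v [MOD N]
  unfold Nat.ModEq
  exact (Finset.sum_nat_mod S N x).symm

/-- lift a submultiset of `(ty N x ρ (ρ v)).erase (x v % N)` -/
lemma lift_ty {α β : Type} [Fintype α] [DecidableEq α] [DecidableEq β] (N : ℕ)
    (x : α → ℕ) (ρ : α → β) (v : α) (σ : Multiset ℕ)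
    (hσ : σ ≤ (ty N x ρ (ρ v)).erase (x v % N)) :
    ∃ S : Finset α, (∀ w ∈ S, ρ w = ρ v) ∧ v ∉ S ∧ S.val.map (fun v => x v % N) = σ := by
  have hv : v ∈ Finset.univ.filter (fun w => ρ w = ρ v) := by simp
  have e : (ty N x ρ (ρ v)).erase (x v % N) =
      ((Finset.univ.filter (fun w => ρ w = ρ v)).erase v).val.map (fun v => x v % N) := by
    unfold ty
    conv_lhs => rw [← Finset.insert_erase hv]
    rw [Finset.insert_val_of_notMem (Finset.notMem_erase _ _), Multiset.map_cons,
      Multiset.erase_cons_head]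
  rw [e] at hσ
  obtain ⟨S, hS, hS'⟩ := lift_le _ _ σ hσ
  refine ⟨S, fun w hw => ?_, fun h => ?_, hS'⟩
  · have := hS hw
    simp at this
    exact this.2
  · have := hS h
    simp at this

theorem main (h4 : S_M4) : S_M7 := by
  intro N α β _ _ _ _ x R hN hO ρ κ hR v w hvw hκ σ hσ σ' hσ'
  have hO3 := hO.2.2
  obtain ⟨hρ, _, horth, _, _, _⟩ := hO3 ρ κ hR
  have hne : ρ v ≠ ρ w := fun h => horth v w hvw h hκ
  obtain ⟨S, hS, hvS, rfl⟩ := lift_ty N x ρ v σ hσ
  obtain ⟨T, hT, hwT, rfl⟩ := lift_ty N x ρ w σ' hσ'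
  have hvT : v ∉ T := fun h => hne (hT v h)
  have hwS : w ∉ S := fun h => hne (hS w h).symm
  have e1 := sum_map_modEq N x S
  have e2 := sum_map_modEq N x T
  refine ⟨fun hc => ?_, fun hc => ?_⟩
  · have hst : sx x (insert v S) ≡ sx x T [MOD N] := by
      unfold sx at *
      rw [Finset.sum_insert hvS]
      exact (((Nat.mod_modEq (x v) N).symm.add e1.symm).trans hc).trans e2
    have hR' := h4 N α β x R hN hO ρ κ hR (ρ v) (ρ w) hne (insert v S) T
      (fun u hu => by
        rcases Finset.mem_insert.mp hu with h | h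
        · rw [h]
        · exact hS u h) hT hst
    obtain ⟨_, _, horth', _, _, _⟩ := hO3 _ κ hR'
    exact horth' v w hvw (by simp [hvw.symm, hwS, hwT]) hκ
  · have hst : sx x S ≡ sx x (insert w T) [MOD N] := by
      unfold sx at *
      rw [Finset.sum_insert hwT]
      exact (e1.symm.trans hc).trans ((Nat.mod_modEq (x w) N).add e2)
    have hR' := h4 N α β x R hN hO ρ κ hR (ρ v) (ρ w) hne S (insert w T) hS
      (fun u hu => by
        rcases Finset.mem_insert.mp hu with h | h
        · rw [h]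
        · exact hT u h) hst
    obtain ⟨_, _, horth', _, _, _⟩ := hO3 _ κ hR'
    exact horth' v w hvw (by simp [hvw, hvS, hvT, hwS]) hκ

end Pool.Agent.Helper95.PQ.M7
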