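import Pool.Agent.Helper95.PQ.M7

set_option autoImplicit false

/-!
Part M8 of swarm PQ.
-/

namespace Pool.Agent.Helper95.PQ.M8

open Finset Pool.Agent.Helper42.PQ Pool.Agent.Helper95.PQ.M7

variable {N : ℕ} {α β : Type} [Fintype α] [DecidableEq α] [Fintype β]
  [DecidableEq β] {x : α → ℕ} {R : (α → β) → (α → β) → Prop}

omit [DecidableEq α] [Fintype β] in
lemma mem_ty (N : ℕ) (x : α → ℕ) (ρ : α → β) (v : α) : x v % N ∈ ty N x ρ (ρ v) := by
  unfold ty
  rw [Multiset.mem_map]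
  exact ⟨v, by simp, rfl⟩

lemma valT (h5 : S_M5) (hN : 2 ≤ N) (hO : OrtF N x R) {ρ κ : α → β} (hR : R ρ κ) (a : β) :
    ValT N (ty N x ρ a) := by
  have hO3 := hO.2.2
  obtain ⟨hρ, _, _, _, _, _⟩ := hO3 ρ κ hR
  obtain ⟨h51, h52⟩ := h5 N α β x R hN hO ρ κ hR a
  refine ⟨fun b hb => ?_, fun σ hσ hne => ?_, ?_, ?_⟩
  · unfold ty at hb
    rw [Multiset.mem_map] at hb
    obtain ⟨v, _, rfl⟩ := hb
    refine ⟨Nat.pos_of_ne_zero fun h => hO.1 v (Nat.dvd_of_mod_eq_zero h), Nat.mod_lt _ (by omega)⟩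
  · obtain ⟨S, hS, rfl⟩ := lift_le _ _ σ hσ
    have hSn : S.Nonempty := by
      rw [Finset.nonempty_iff_ne_empty]
      intro h
      apply hne
      simp [h]
    intro hd
    refine h51 S (fun v hv => by simpa using hS hv) hSn ?_
    exact Nat.modEq_zero_iff_dvd.mp
      ((sum_map_modEq N x S).symm.trans (Nat.modEq_zero_iff_dvd.mpr hd))
  · have h1 := hρ a
    have h2 := sum_map_modEq N x (Finset.univ.filter (fun v => ρ v = a))
    unfold ty
    exact Nat.modEq_zero_iff_dvd.mp ((h2.add_right 1).trans (Nat.modEq_zero_iff_dvd.mpr h1))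
  · unfold ty
    rw [Multiset.card_map]
    exact h52

/-- the neighbours in a column -/
lemma nbr (h7 : S_M7) (hN : 2 ≤ N) (hO : OrtF N x R) {B : ℕ}
    (hB : ∀ ρ κ, R ρ κ → ∀ a b, a ≠ b → (ty N x ρ a).sum + (ty N x ρ b).sum ≤ B)
    {ρ κ : α → β} (hR : R ρ κ) (v : α) (b : ℕ) (hb : b ∈ (ty N x κ (κ v)).erase (x v % N)) :
    ∃ w, w ≠ v ∧ κ w = κ v ∧ x w % N = b ∧
      cmpt N (x v % N) (ty N x ρ (ρ v)) b (ty N x ρ (ρ w)) ∧
      (ty N x ρ (ρ v)).sum + (ty N x ρ (ρ w)).sum ≤ B := by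
  have hO3 := hO.2.2
  obtain ⟨hρ, _, horth, _, _, _⟩ := hO3 ρ κ hR
  have h1 : ({b} : Multiset ℕ) ≤ (ty N x κ (κ v)).erase (x v % N) := by
    rwa [Multiset.singleton_le]
  obtain ⟨S, hS, hvS, hSb⟩ := lift_ty N x κ v {b} h1
  have h2 : S.card = 1 := by
    have := congrArg Multiset.card hSb
    simpa using this
  obtain ⟨w, rfl⟩ := Finset.card_eq_one.mp h2
  have hwv : w ≠ v := fun h => hvS (by simp [h])
  have hκ : κ w = κ v := hS w (by simp)
  have hbw : x w % N = b := by simpa using hSb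
  refine ⟨w, hwv, hκ, hbw, ?_, ?_⟩
  · rw [← hbw]
    exact h7 N α β x R hN hO ρ κ hR v w hwv.symm hκ.symm
  · exact hB ρ κ hR (ρ v) (ρ w) (fun h => horth v w hwv.symm h hκ.symm)

theorem main (h4 : S_M4) (h5 : S_M5) (h7 : S_M7) : S_M8 := by
  intro N B α β _ _ _ _ x R hN hO hB C hC a τ γ hmem
  obtain ⟨ρ, κ, hR, rfl⟩ := hC
  obtain ⟨v, hv⟩ := hmem
  simp only [Prod.mk.injEq] at hv
  obtain ⟨rfl, rfl, rfl⟩ := hv
  have hO3 := hO.2.2
  obtain ⟨hρ, hκ, horth, _, hsym, _⟩ := hO3 ρ κ hR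
  refine ⟨⟨mem_ty N x ρ v, mem_ty N x κ v, valT h5 hN hO hR _, valT h5 hN hO hsym _⟩,
    fun b hb => ?_, fun b hb => ?_, fun τ' γ' hm hτ hγ => ?_⟩
  · obtain ⟨w, hwv, hκw, hbw, hc, hs⟩ := nbr h7 hN hO hB hR v b hb
    exact ⟨ty N x ρ (ρ w), ⟨w, by rw [hbw, hκw]⟩, hc, hs⟩
  · obtain ⟨w, hwv, hκw, hbw, hc, hs⟩ := nbr h7 hN hO hB hsym v b hb
    exact ⟨ty N x κ (κ w), ⟨w, by rw [hbw, hκw]⟩, hc, hs⟩
  · obtain ⟨w, hw⟩ := hm
    simp only [Prod.mk.injEq] at hw
    obtain ⟨h1, rfl, rfl⟩ := hw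
    have hne : ρ v ≠ ρ w := fun h => hτ (by rw [h])
    have hst : sx x ({v} : Finset α) ≡ sx x ({w} : Finset α) [MOD N] := by
      unfold sx
      rw [Finset.sum_singleton, Finset.sum_singleton]
      exact h1
    have hR' := h4 N α β x R hN hO ρ κ hR (ρ v) (ρ w) hne {v} {w}
      (fun u hu => by rw [Finset.mem_singleton.mp hu])
      (fun u hu => by rw [Finset.mem_singleton.mp hu]) hst
    refine ⟨_, ⟨_, κ, hR', rfl⟩, w, ?_⟩
    have hwv : w ≠ v := fun h => hne (by rw [h])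
    have e0 : (if w ∈ ({v} : Finset α) then ρ w else if w ∈ ({w} : Finset α) then ρ v else ρ w)
        = ρ v := by simp [hwv]
    simp only [Prod.mk.injEq]
    refine ⟨h1, ?_, trivial⟩
    rw [e0]
    unfold ty
    have hv : v ∈ Finset.univ.filter (fun u => ρ u = ρ v) := by simp
    have e1 : Finset.univ.filter (fun u =>
        (if u ∈ ({v} : Finset α) then ρ w else if u ∈ ({w} : Finset α) then ρ v else ρ u) = ρ v)
        = insert w ((Finset.univ.filter (fun u => ρ u = ρ v)).erase v) := by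
      ext u
      simp only [Finset.mem_filter, Finset.mem_univ, true_and, Finset.mem_insert,
        Finset.mem_erase, Finset.mem_singleton]
      by_cases h2 : u = v
      · subst h2
        simp [hne.symm, hwv.symm]
      · by_cases h3 : u = w
        · simp [h3, hwv]
        · simp [h2, h3]
    have hw' : w ∉ (Finset.univ.filter (fun u => ρ u = ρ v)).erase v := by
      simp [hne.symm]
    rw [e1, Finset.insert_val_of_notMem hw', Multiset.map_cons, ← h1]
    conv_lhs => rw [← Finset.insert_erase hv]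
    rw [Finset.insert_val_of_notMem (Finset.notMem_erase _ _), Multiset.map_cons]

end Pool.Agent.Helper95.PQ.M8
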